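import Pool.Agent.Work.MP_6503f0_an.Proofs

set_option autoImplicit false

open Pool.Agent.Work.MP_6503f0_an

namespace Pool.Agent.Results.MP_6503f0_an.SeparateContinuity

universe u

/-- For every JB*-algebra `A` and every multiplier `x`, left and right multiplication by `x` map
the multiplier algebra `M(A)` to itself and are continuous on `M(A)` for the J-strict
topology. -/
theorem result {A : Type u} [NormedAddCommGroup A] [NormedSpace ℂ A] [CompleteSpace A]
    (J : JBStarAlgebra A) (x : Dual (Dual A)) (hx : x ∈ J.multiplier) :
    (Set.MapsTo (fun y => J.arens x y) J.multiplier J.multiplier ∧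
      @ContinuousOn _ _ J.strict J.strict (fun y => J.arens x y) J.multiplier) ∧
    (Set.MapsTo (fun y => J.arens y x) J.multiplier J.multiplier ∧
      @ContinuousOn _ _ J.strict J.strict (fun y => J.arens y x) J.multiplier) :=
  ⟨⟨fun _ hy => J.arens_mem_multiplier hx hy,
      @Continuous.continuousOn _ _ J.strict J.strict _ _ (J.continuous_left hx)⟩,
    ⟨fun _ hy => J.arens_mem_multiplier hy hx,
      @Continuous.continuousOn _ _ J.strict J.strict _ _ (J.continuous_right hx)⟩⟩

end Pool.Agent.Results.MP_6503f0_an.SeparateContinuity
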